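import Pool.Agent.H66.L.S8.H718R2.G0

/-!
# Recurrence along prescribed residue classes and with a prescribed rotation
-/

set_option autoImplicit false

open Filter Set Topology

namespace Pool.Agent.TH290.CL

open Pool.Agent.H718R2.G

section blocks

variable {X : Type*} [TopologicalSpace X] (F : X → X) (hF : Continuous F) (x : X)
  (hrec : ∀ W ∈ 𝓝 x, ∃ n : ℕ, 1 ≤ n ∧ F^[n] x ∈ W)

include hF hrec in
theorem next_nhd (W : {W : Set X // W ∈ 𝓝 x}) :
    ∃ (n : ℕ) (W' : {W : Set X // W ∈ 𝓝 x}), 1 ≤ n ∧ W'.1 ⊆ W.1 ∧ ∀ y ∈ W'.1, F^[n] y ∈ W.1 := by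
  obtain ⟨n, hn, hx⟩ := hrec (interior W.1) (interior_mem_nhds.2 W.2)
  have h1 : W.1 ∈ 𝓝 (F^[n] x) := mem_interior_iff_mem_nhds.1 hx
  exact ⟨n, ⟨W.1 ∩ F^[n] ⁻¹' W.1, inter_mem W.2 ((hF.iterate n).continuousAt.preimage_mem_nhds h1)⟩,
    hn, inter_subset_left, fun y hy => hy.2⟩

include hF hrec in
theorem blocks_seq (W : Set X) (hW : W ∈ 𝓝 x) :
    ∃ S : ℕ → ℕ, (∀ j, S j + 1 ≤ S (j + 1)) ∧ ∀ i j, i ≤ j → F^[S j - S i] x ∈ W := by
  choose n N hn hN1 hN2 using next_nhd F hF x hrec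
  set sq : ℕ → {W : Set X // W ∈ 𝓝 x} := fun j => Nat.rec ⟨W, hW⟩ (fun _ V => N V) j with hsq
  have hsq0 : sq 0 = ⟨W, hW⟩ := rfl
  have hsq1 : ∀ j, sq (j + 1) = N (sq j) := fun j => rfl
  set S : ℕ → ℕ := fun j => ∑ l ∈ Finset.range j, n (sq l) with hS
  have hS1 : ∀ j, S (j + 1) = S j + n (sq j) := fun j => Finset.sum_range_succ _ _
  have hmono : Monotone S := by
    apply monotone_nat_of_le_succ
    intro j
    rw [hS1]
    exact Nat.le_add_right _ _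
  have hsub : ∀ j, (sq j).1 ⊆ W := by
    intro j
    induction j with
    | zero => exact subset_rfl
    | succ j ih => exact (hN1 (sq j)).trans ih
  have key : ∀ i j, i ≤ j → ∀ y ∈ (sq j).1, F^[S j - S i] y ∈ (sq i).1 := by
    intro i j hij
    induction j, hij using Nat.le_induction with
    | base => intro y hy; rwa [Nat.sub_self]
    | succ j hij ih =>
      intro y hy
      have h1 : F^[n (sq j)] y ∈ (sq j).1 := hN2 (sq j) y hy
      have h2 : S (j + 1) - S i = (S j - S i) + n (sq j) := by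
        rw [hS1]
        have := hmono hij
        omega
      rw [h2, Function.iterate_add_apply]
      exact ih _ h1
  refine ⟨S, ?_, ?_⟩
  · intro j
    rw [hS1]
    exact Nat.add_le_add_left (hn _) _
  · intro i j hij
    exact hsub i (key i j hij x (mem_of_mem_nhds (sq j).2))

include hF hrec in
theorem blocks (W : Set X) (hW : W ∈ 𝓝 x) (α : ℝ) (Q : ℕ) (hQ : 1 ≤ Q) (ε : ℝ) (hε : 0 < ε)
    (M₀ : ℕ) : ∃ M : ℕ, M₀ ≤ M ∧ 1 ≤ M ∧ Q ∣ M ∧ F^[M] x ∈ W ∧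
      ∃ K : ℤ, (Q : ℤ) ∣ K ∧ |(M : ℝ) * α - K| < ε := by
  obtain ⟨S, hS1, hS2⟩ := blocks_seq F hF x hrec W hW
  have hQ0 : (0 : ℝ) < Q := by exact_mod_cast hQ
  obtain ⟨R, hR⟩ := exists_nat_gt ((Q : ℝ) / ε)
  have hR0 : (0 : ℝ) < R := lt_of_le_of_lt (by positivity) hR
  have hR1 : 0 < R := by exact_mod_cast hR0
  have hgrow : ∀ i d : ℕ, S i + d ≤ S (i + d) := by
    intro i d
    induction d with
    | zero => exact le_rfl
    | succ d ih =>
      have h0 : S (i + (d + 1)) = S (i + d + 1) := rfl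
      have := hS1 (i + d)
      omega
  set T : ℕ → ℕ := fun j => S (j * (M₀ + 1)) with hT
  have hfl : ∀ j, (⌊(R : ℝ) * Int.fract ((T j : ℝ) * α / Q)⌋₊) < R := by
    intro j
    rw [Nat.floor_lt (mul_nonneg hR0.le (Int.fract_nonneg _))]
    have := Int.fract_lt_one ((T j : ℝ) * α / Q)
    nlinarith
  set f : ℕ → Fin Q × Fin R := fun j => (⟨T j % Q, Nat.mod_lt _ hQ⟩,
    ⟨⌊(R : ℝ) * Int.fract ((T j : ℝ) * α / Q)⌋₊, hfl j⟩) with hf
  obtain ⟨i, j, hij, hfij⟩ : ∃ i j, i < j ∧ f i = f j := by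
    obtain ⟨i, j, hij, hfij⟩ := Finite.exists_ne_map_eq_of_infinite f
    rcases lt_or_gt_of_ne hij with h | h
    · exact ⟨i, j, h, hfij⟩
    · exact ⟨j, i, h, hfij.symm⟩
  have h1 : T i % Q = T j % Q := congrArg (fun u : Fin Q × Fin R => (u.1 : ℕ)) hfij
  have h2 : ⌊(R : ℝ) * Int.fract ((T i : ℝ) * α / Q)⌋₊ = ⌊(R : ℝ) * Int.fract ((T j : ℝ) * α / Q)⌋₊ :=
    congrArg (fun u : Fin Q × Fin R => (u.2 : ℕ)) hfij
  obtain ⟨d, hd⟩ := Nat.exists_eq_add_of_lt hij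
  have h3 : T i + (M₀ + 1) ≤ T j := by
    have h4 := hgrow (i * (M₀ + 1)) ((d + 1) * (M₀ + 1))
    have h5 : i * (M₀ + 1) + (d + 1) * (M₀ + 1) = j * (M₀ + 1) := by
      rw [hd]
      ring
    rw [h5] at h4
    have h6 : M₀ + 1 ≤ (d + 1) * (M₀ + 1) := Nat.le_mul_of_pos_left _ (Nat.succ_pos d)
    show S (i * (M₀ + 1)) + (M₀ + 1) ≤ S (j * (M₀ + 1))
    omega
  obtain ⟨M, hM⟩ : ∃ M, M = T j - T i := ⟨_, rfl⟩
  refine ⟨M, by omega, by omega, ?_, ?_, ?_⟩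
  · rw [hM]
    exact (Nat.modEq_iff_dvd' (by omega)).1 h1
  · rw [hM]
    exact hS2 _ _ (Nat.mul_le_mul_right _ hij.le)
  · obtain ⟨a, ha⟩ : ∃ a : ℝ, a = (T i : ℝ) * α / Q := ⟨_, rfl⟩
    obtain ⟨b, hb⟩ : ∃ b : ℝ, b = (T j : ℝ) * α / Q := ⟨_, rfl⟩
    rw [← ha, ← hb] at h2
    refine ⟨(Q : ℤ) * (⌊b⌋ - ⌊a⌋), dvd_mul_right _ _, ?_⟩
    have h4 : (M : ℝ) * α = Q * (b - a) := by
      rw [hM, Nat.cast_sub (by omega), ha, hb]
      field_simp
    have h5 : (M : ℝ) * α - (((Q : ℤ) * (⌊b⌋ - ⌊a⌋) : ℤ) : ℝ) = Q * (Int.fract b - Int.fract a) := by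
      rw [h4]
      push_cast
      rw [Int.fract, Int.fract]
      ring
    rw [h5, abs_mul, abs_of_pos hQ0]
    have h6 : |(R : ℝ) * Int.fract b - R * Int.fract a| < 1 := by
      have e1 := Nat.floor_le (mul_nonneg hR0.le (Int.fract_nonneg a))
      have e2 := Nat.lt_floor_add_one ((R : ℝ) * Int.fract a)
      have e3 := Nat.floor_le (mul_nonneg hR0.le (Int.fract_nonneg b))
      have e4 := Nat.lt_floor_add_one ((R : ℝ) * Int.fract b)
      rw [h2] at e1 e2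
      rw [abs_lt]
      constructor <;> linarith
    rw [← mul_sub, abs_mul, abs_of_pos hR0] at h6
    rw [div_lt_iff₀ hε] at hR
    have h7 := abs_nonneg (Int.fract b - Int.fract a)
    by_contra hcon
    push Not at hcon
    have h8 : ε * (R * |Int.fract b - Int.fract a|) < ε * 1 := mul_lt_mul_of_pos_left h6 hε
    nlinarith

end blocks

section homeo

variable {X : Type*} [TopologicalSpace X]

theorem pow_apply (F : X ≃ₜ X) (n : ℕ) (x : X) : (F ^ n) x = F^[n] x := by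
  induction n generalizing x with
  | zero => rfl
  | succ n ih =>
    rw [pow_succ, Function.iterate_succ_apply, ← ih]
    rfl

theorem zpow_neg_apply (F : X ≃ₜ X) (n : ℕ) (x : X) : (F ^ (-(n : ℤ))) x = F.symm^[n] x := by
  rw [zpow_neg, zpow_natCast, ← inv_pow]
  exact pow_apply F.symm n x

theorem zpow_add_apply (F : X ≃ₜ X) (m n : ℤ) (x : X) : (F ^ (m + n)) x = (F ^ m) ((F ^ n) x) := by
  rw [zpow_add]
  rfl

/-- A recurrent point returns in the future or in the past. -/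
theorem rec_cases (F : X ≃ₜ X) (x : X) (hx : IsRec F x) :
    (∀ W ∈ 𝓝 x, ∃ n : ℕ, 1 ≤ n ∧ F^[n] x ∈ W) ∨ (∀ W ∈ 𝓝 x, ∃ n : ℕ, 1 ≤ n ∧ F.symm^[n] x ∈ W) := by
  by_contra hcon
  push Not at hcon
  obtain ⟨⟨W1, hW1, h1⟩, ⟨W2, hW2, h2⟩⟩ := hcon
  apply hx
  have hz : ∀ m : ℤ, (F ^ m) x ∈ W1 ∩ W2 → m = 0 := by
    intro m hm
    rcases lt_trichotomy m 0 with h | h | h
    · exfalso
      obtain ⟨n, hn⟩ := Int.eq_ofNat_of_zero_le (by omega : 0 ≤ -m)
      have h3 : m = -(n : ℤ) := by omega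
      rw [h3, zpow_neg_apply] at hm
      exact h2 n (by omega) hm.2
    · exact h
    · exfalso
      obtain ⟨n, hn⟩ := Int.eq_ofNat_of_zero_le h.le
      rw [hn, zpow_natCast, pow_apply] at hm
      exact h1 n (by omega) hm.1
  have hx0 : x ∈ W1 ∩ W2 := ⟨mem_of_mem_nhds hW1, mem_of_mem_nhds hW2⟩
  have hinj : Function.Injective (fun m : ℤ => (F ^ m) x) := by
    intro m n hmn
    have h3 : (F ^ (-n + m)) x = x := by
      rw [zpow_add_apply]
      have h4 : (F ^ m) x = (F ^ n) x := hmn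
      rw [h4, ← zpow_add_apply, neg_add_cancel, zpow_zero]
      rfl
    have h5 := hz (-n + m) (by rw [h3]; exact hx0)
    omega
  refine ⟨Topology.isInducing_iff_nhds.2 fun m => ?_, hinj⟩
  rw [nhds_discrete ℤ]
  apply le_antisymm
  · rw [← map_le_iff_le_comap, Filter.map_pure]
    exact pure_le_nhds _
  · rw [Filter.le_pure_iff]
    refine ⟨(F ^ (-m)) ⁻¹' (W1 ∩ W2), ?_, ?_⟩
    · apply (F ^ (-m)).continuous.continuousAt.preimage_mem_nhds
      rw [← zpow_add_apply, neg_add_cancel, zpow_zero]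
      exact inter_mem hW1 hW2
    · intro n hn
      have h3 : (F ^ (-m + n)) x ∈ W1 ∩ W2 := by
        rw [zpow_add_apply]
        exact hn
      have h4 := hz _ h3
      rw [mem_singleton_iff]
      omega

end homeo

end Pool.Agent.TH290.CL
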